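import Pool.Agent.N659.HB.Stm2

/-!
# HB/GAPA: the gap in high dimension from the parts

For `MP_d0f69c_mp` (project HB of helper659).
-/

set_option autoImplicit false

namespace Pool.Agent.N163.HB.GAPA

open MeasureTheory Filter Pool.Agent.W792.LL Pool.Agent.W792.WA Pool.Agent.N659.HB
open scoped Topology ENNReal

noncomputable section

/-! ### Laws -/

theorem lev_meas (ψ : C(UnitAddCircle, ℝ)) (l : ℝ) :
    Measurable (fun φ : ℝ => l * ψ (φ : UnitAddCircle)) := by
  have h : Continuous (fun φ : ℝ => l * ψ (φ : UnitAddCircle)) :=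
    continuous_const.mul (ψ.continuous.comp (AddCircle.continuous_mk' 1))
  exact h.measurable

theorem lev_prob (ψ : C(UnitAddCircle, ℝ)) (l : ℝ) : IsProbabilityMeasure (lev ψ l) := by
  have h1 : IsProbabilityMeasure (volume.restrict (Set.Ioc (0 : ℝ) 1)) := ⟨by simp⟩
  unfold lev
  exact Measure.isProbabilityMeasure_map (lev_meas ψ l).aemeasurable

theorem lev_supp {ψ : C(UnitAddCircle, ℝ)} (hψ : IsSemi ψ) {l : ℝ} (hl : 0 < l) :
    lev ψ l (Set.Icc (-l) l)ᶜ = 0 := by
  unfold lev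
  rw [Measure.map_apply (lev_meas ψ l) measurableSet_Icc.compl]
  have h : (fun φ : ℝ => l * ψ (φ : UnitAddCircle)) ⁻¹' (Set.Icc (-l) l)ᶜ = ∅ := by
    ext φ
    simp only [Set.mem_preimage, Set.mem_compl_iff, Set.mem_empty_iff_false, iff_false, not_not]
    have h1 := abs_le.1 (hψ.bound (φ : UnitAddCircle))
    constructor
    · nlinarith [h1.1]
    · nlinarith [h1.2]
  rw [h, measure_empty]

theorem conv_supp (μ ν : Measure ℝ) [IsProbabilityMeasure μ] [IsProbabilityMeasure ν] {a b : ℝ}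
    (hμ : μ (Set.Icc (-a) a)ᶜ = 0) (hν : ν (Set.Icc (-b) b)ᶜ = 0) :
    (μ.conv ν) (Set.Icc (-(a + b)) (a + b))ᶜ = 0 := by
  rw [Measure.conv, Measure.map_apply measurable_add measurableSet_Icc.compl]
  refine measure_mono_null (t := ((Set.Icc (-a) a)ᶜ ×ˢ Set.univ) ∪
    (Set.univ ×ˢ (Set.Icc (-b) b)ᶜ)) ?_ ?_
  · rintro ⟨x, y⟩ h
    by_contra hcon
    simp only [Set.mem_union, Set.mem_prod, Set.mem_compl_iff, Set.mem_univ, and_true, true_and,
      not_or, not_not] at hcon
    apply h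
    exact ⟨by linarith [hcon.1.1, hcon.2.1], by linarith [hcon.1.2, hcon.2.2]⟩
  · refine measure_union_null ?_ ?_
    · rw [Measure.prod_prod, hμ, zero_mul]
    · rw [Measure.prod_prod, hν, mul_zero]

/-- the variance of the Cayley transform of a Bernoulli variable -/
theorem vr_tp {α : ℝ} (hα : 0 < α) : 0 < vr (tp α) := by
  have h1 : ∫ x, cay x ∂(tp α) = (((α ^ 2 - 1) / (α ^ 2 + 1) : ℝ) : ℂ) := by
    unfold tp
    rw [integral_add_measure, integral_smul_measure, integral_smul_measure, integral_dirac,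
      integral_dirac]
    · unfold cay
      have n1 : (α : ℂ) - Complex.I ≠ 0 := by
        intro h0
        have := congrArg Complex.im h0
        simp at this
      have n2 : (α : ℂ) + Complex.I ≠ 0 := by
        intro h0
        have := congrArg Complex.im h0
        simp at this
      have n3 : ((-α : ℝ) : ℂ) - Complex.I ≠ 0 := by
        intro h0
        have := congrArg Complex.im h0
        simp at this
      have n4 : ((α : ℂ)) ^ 2 + 1 ≠ 0 := by
        have : ((α : ℂ)) ^ 2 + 1 = ((α : ℂ) - Complex.I) * ((α : ℂ) + Complex.I) := by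
          linear_combination Complex.I_sq
        rw [this]
        exact mul_ne_zero n1 n2
      have e1 : ((1 / 2 : ℝ≥0∞)).toReal = 1 / 2 := by norm_num
      rw [e1]
      have e2 : (((-α : ℝ) : ℂ) + Complex.I) / (((-α : ℝ) : ℂ) - Complex.I) =
          ((α : ℂ) - Complex.I) / ((α : ℂ) + Complex.I) := by
        rw [div_eq_div_iff n3 n2]
        push_cast
        ring
      rw [e2]
      simp only [Complex.real_smul]
      push_cast
      rw [eq_div_iff n4]
      have e3 : ((α : ℂ)) ^ 2 + 1 = ((α : ℂ) - Complex.I) * ((α : ℂ) + Complex.I) := by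
        linear_combination Complex.I_sq
      rw [e3]
      field_simp
      linear_combination 2 * Complex.I_sq
    · exact (integrable_dirac (by simp)).smul_measure (by simp)
    · exact (integrable_dirac (by simp)).smul_measure (by simp)
  unfold vr
  rw [h1, Complex.norm_real, Real.norm_eq_abs, sq_abs, div_pow, sub_pos,
    div_lt_one (by positivity)]
  nlinarith [sq_nonneg α, sq_pos_of_pos hα]

/-! ### Pointwise estimates -/

theorem wl_nonneg {l : ℝ} (hl : 0 < l) (x : ℝ) : 0 ≤ wl l x := by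
  unfold wl
  split_ifs <;> positivity

theorem wl_le {l : ℝ} (hl : 0 < l) (x : ℝ) : wl l x ≤ 2 / l := by
  unfold wl
  split_ifs with h
  · exact le_rfl
  · push Not at h
    rw [div_le_div_iff₀ (by linarith) hl]
    linarith

theorem wl_meas (l : ℝ) : Measurable (wl l) := by
  unfold wl
  refine Measurable.ite (measurableSet_le (by fun_prop) (by fun_prop)) (by fun_prop) (by fun_prop)

theorem wl_bound {α l b y S0 β : ℝ} (hα : 0 < α) (hl : 0 < l) (hS : |S0| ≤ 3 * α * b)
    (h48 : 48 * b ≤ l) (h1 : β ≤ 2 / (α * l))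
    (h2 : 2 * (α * l) ≤ |α * y + S0| → β ≤ 3 / |α * y + S0|) : α * β ≤ wl l y := by
  unfold wl
  split_ifs with h
  · calc α * β ≤ α * (2 / (α * l)) := mul_le_mul_of_nonneg_left h1 hα.le
      _ = 2 / l := by field_simp
  · push Not at h
    have h3 : |α * y| - |S0| ≤ |α * y + S0| := by
      have := abs_sub_abs_le_abs_sub (α * y) (-S0)
      rwa [abs_neg, sub_neg_eq_add] at this
    rw [abs_mul, abs_of_pos hα] at h3
    have h4 : |S0| ≤ α * (l / 16) := by
      refine hS.trans ?_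
      nlinarith
    have h5 : α * (|y| / 2) ≤ |α * y + S0| := by
      nlinarith [mul_lt_mul_of_pos_left h hα]
    have h6 : 2 * (α * l) ≤ |α * y + S0| := by
      nlinarith [mul_lt_mul_of_pos_left h hα]
    have hy : 0 < |y| := by linarith
    calc α * β ≤ α * (3 / |α * y + S0|) := mul_le_mul_of_nonneg_left (h2 h6) hα.le
      _ ≤ α * (3 / (α * (|y| / 2))) := by
          apply mul_le_mul_of_nonneg_left _ hα.le
          exact div_le_div_of_nonneg_left (by norm_num) (by positivity) h5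
      _ = 6 / |y| := by
          field_simp
          norm_num

theorem q_bound {α : ℝ} (hα : 0 < α) {β S : ℂ} (hβ : β ≠ 0) (h : ‖β * S‖ ≤ 1 / 8) :
    ‖(α : ℂ) / (1 / β - S)‖ ≤ 2 * (α * ‖β‖) ∧
      ‖(α : ℂ) / (1 / β - S) - α * β‖ ≤ 2 * (α * ‖β‖) * ‖β * S‖ := by
  have h1 : 1 / 2 ≤ ‖1 - β * S‖ := by
    have h2 := norm_sub_norm_le (1 : ℂ) (β * S)
    rw [norm_one] at h2
    linarith
  have h0 : 1 - β * S ≠ 0 := by
    intro h3
    rw [h3, norm_zero] at h1
    norm_num at h1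
  have e1 : (1 / β - S) = (1 - β * S) / β := by field_simp
  have e2 : (α : ℂ) / (1 / β - S) = α * β / (1 - β * S) := by
    rw [e1]
    field_simp
  have e3 : (α : ℂ) / (1 / β - S) - α * β = α * β * (β * S) / (1 - β * S) := by
    rw [e2]
    field_simp
    ring
  have hn : ‖(α : ℂ) * β‖ = α * ‖β‖ := by
    rw [norm_mul, Complex.norm_real, Real.norm_of_nonneg hα.le]
  have hp : 0 < ‖1 - β * S‖ := by linarith
  constructor
  · rw [e2, norm_div, hn, div_le_iff₀ hp]
    have : 0 ≤ α * ‖β‖ := by positivity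
    nlinarith
  · rw [e3, norm_div, norm_mul, hn, div_le_iff₀ hp]
    have : 0 ≤ α * ‖β‖ * ‖β * S‖ := by positivity
    nlinarith

theorem lap_mem (d : ℕ) (k : UnitAddTorus (Fin d)) : 0 ≤ lap d k ∧ lap d k ≤ 4 * d := by
  have h : ∀ i, |(fourier 1 (k i)).re| ≤ 1 := by
    intro i
    refine (Complex.abs_re_le_norm _).trans ?_
    rw [fourier_apply, Circle.norm_coe]
  have e : lap d k = ∑ i, (2 - 2 * (fourier 1 (k i)).re) := rfl
  rw [e]
  constructor
  · refine Finset.sum_nonneg fun i _ => ?_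
    have := (abs_le.1 (h i)).2
    linarith
  · calc ∑ i, (2 - 2 * (fourier 1 (k i)).re) ≤ ∑ _i : Fin d, (4 : ℝ) := by
          refine Finset.sum_le_sum fun i _ => ?_
          have := (abs_le.1 (h i)).1
          linarith
      _ = 4 * d := by simp [mul_comm]

/-! ### Integrals -/

theorem cont_int {d : ℕ} {E : Type} [NormedAddCommGroup E] {f : UnitAddTorus (Fin d) → E}
    (hf : Continuous f) : Integrable f := by
  have h := hf.continuousOn.integrableOn_compact (μ := (volume : Measure (UnitAddTorus (Fin d))))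
    (isCompact_univ (X := UnitAddTorus (Fin d)))
  rwa [integrableOn_univ] at h

theorem wl_int {d : ℕ} {l : ℝ} (hl : 0 < l) (E : ℝ) :
    Integrable (fun k : UnitAddTorus (Fin d) => wl l (lap d k - E)) ∧
    Integrable (fun k : UnitAddTorus (Fin d) => wl l (lap d k - E) ^ 2) := by
  have hm : Measurable (fun k : UnitAddTorus (Fin d) => wl l (lap d k - E)) :=
    (wl_meas l).comp (((lap d).continuous.sub continuous_const).measurable)
  constructor
  · refine Integrable.of_bound hm.aestronglyMeasurable (2 / l) (ae_of_all _ fun k => ?_)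
    rw [Real.norm_of_nonneg (wl_nonneg hl _)]
    exact wl_le hl _
  · refine Integrable.of_bound (hm.pow_const 2).aestronglyMeasurable ((2 / l) ^ 2)
      (ae_of_all _ fun k => ?_)
    rw [Real.norm_of_nonneg (by positivity)]
    exact pow_le_pow_left₀ (wl_nonneg hl _) (wl_le hl _) 2

theorem int_part {d : ℕ} {α b l Λ cA E : ℝ} (hd : 0 < d) (hα : 0 < α) (hl : 0 < l) (hb : 0 < b)
    {β q : UnitAddTorus (Fin d) → ℂ} (hβ : Continuous β) (hq : Continuous q)
    (h1 : ∀ k, α * ‖β k‖ ≤ wl l (lap d k - E)) (h2 : ∀ k, ‖q k‖ ≤ 2 * (α * ‖β k‖))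
    (h3 : ∀ k, ‖q k - α * β k‖ ≤ 6 * b * wl l (lap d k - E) ^ 2)
    (h4 : ∀ k, 0 ≤ (β k).im)
    (h5 : ∀ k, |lap d k - E| ≤ l / 4 → 2 / (5 * (α * l)) ≤ (β k).im)
    (hW1 : (∫ k : UnitAddTorus (Fin d), wl l (lap d k - E)) ≤ b / 2)
    (hW2 : (∫ k : UnitAddTorus (Fin d), wl l (lap d k - E) ^ 2) ≤ Λ)
    (hdos : cA * (l / 4) / Real.sqrt d ≤ dos d E (l / 4)) :
    (∀ k, ‖q k‖ ≤ 4 / l) ∧ (∫ k, ‖q k‖ ^ 2) ≤ 4 * Λ ∧ (∫ k, ‖q k‖) ≤ b ∧
      cA / (10 * Real.sqrt d) - 6 * b * Λ ≤ (∫ k, q k).im := by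
  obtain ⟨hi1, hi2⟩ := wl_int (d := d) hl E
  have h12 : ∀ k, ‖q k‖ ≤ 2 * wl l (lap d k - E) := fun k => (h2 k).trans (by linarith [h1 k])
  refine ⟨?_, ?_, ?_, ?_⟩
  · intro k
    refine (h12 k).trans ?_
    have := wl_le hl (lap d k - E)
    calc 2 * wl l (lap d k - E) ≤ 2 * (2 / l) := by linarith
      _ = 4 / l := by ring
  · calc (∫ k, ‖q k‖ ^ 2) ≤ ∫ k : UnitAddTorus (Fin d), 4 * wl l (lap d k - E) ^ 2 := by
          refine integral_mono (cont_int (hq.norm.pow 2)) (hi2.const_mul 4) fun k => ?_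
          have := pow_le_pow_left₀ (norm_nonneg _) (h12 k) 2
          calc ‖q k‖ ^ 2 ≤ (2 * wl l (lap d k - E)) ^ 2 := this
            _ = 4 * wl l (lap d k - E) ^ 2 := by ring
      _ = 4 * ∫ k : UnitAddTorus (Fin d), wl l (lap d k - E) ^ 2 := integral_const_mul _ _
      _ ≤ 4 * Λ := by linarith
  · calc (∫ k, ‖q k‖) ≤ ∫ k : UnitAddTorus (Fin d), 2 * wl l (lap d k - E) :=
          integral_mono (cont_int hq.norm) (hi1.const_mul 2) h12
      _ = 2 * ∫ k : UnitAddTorus (Fin d), wl l (lap d k - E) := integral_const_mul _ _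
      _ ≤ b := by linarith
  · -- the main part
    have hiβ : Integrable (fun k => (α : ℂ) * β k) := cont_int (continuous_const.mul hβ)
    have hiq : Integrable q := cont_int hq
    have e1 : ‖(∫ k, q k) - ∫ k, (α : ℂ) * β k‖ ≤ 6 * b * Λ := by
      rw [← integral_sub hiq hiβ]
      calc ‖∫ k, (q k - (α : ℂ) * β k)‖ ≤ ∫ k, ‖q k - (α : ℂ) * β k‖ :=
            norm_integral_le_integral_norm _
        _ ≤ ∫ k : UnitAddTorus (Fin d), 6 * b * wl l (lap d k - E) ^ 2 :=
            integral_mono (hiq.sub hiβ).norm (hi2.const_mul _) h3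
        _ = 6 * b * ∫ k : UnitAddTorus (Fin d), wl l (lap d k - E) ^ 2 := integral_const_mul _ _
        _ ≤ 6 * b * Λ := mul_le_mul_of_nonneg_left hW2 (by positivity)
    have e2 : (∫ k, (α : ℂ) * β k).im = ∫ k, α * (β k).im := by
      have := (Complex.imCLM.integral_comp_comm hiβ).symm
      simp only [Complex.imCLM_apply] at this
      rw [this]
      congr 1
      funext k
      simp [Complex.mul_im]
    have hT : MeasurableSet {k : UnitAddTorus (Fin d) | |lap d k - E| ≤ l / 4} :=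
      (isClosed_le ((lap d).continuous.sub continuous_const).abs continuous_const).measurableSet
    have e3 : 2 / (5 * l) * dos d E (l / 4) ≤ ∫ k, α * (β k).im := by
      have hc : ∫ k, Set.indicator {k : UnitAddTorus (Fin d) | |lap d k - E| ≤ l / 4}
          (fun _ => 2 / (5 * l)) k = 2 / (5 * l) * dos d E (l / 4) := by
        rw [integral_indicator_const _ hT, smul_eq_mul, mul_comm]
        rfl
      rw [← hc]
      refine integral_mono ((integrable_const _).indicator hT)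
        (cont_int (continuous_const.mul (Complex.continuous_im.comp hβ))) fun k => ?_
      by_cases hk : k ∈ {k : UnitAddTorus (Fin d) | |lap d k - E| ≤ l / 4}
      · rw [Set.indicator_of_mem hk]
        calc 2 / (5 * l) = α * (2 / (5 * (α * l))) := by field_simp
          _ ≤ α * (β k).im := mul_le_mul_of_nonneg_left (h5 k hk) hα.le
      · rw [Set.indicator_of_notMem hk]
        exact mul_nonneg hα.le (h4 k)
    have hsd : 0 < Real.sqrt d := Real.sqrt_pos.2 (by exact_mod_cast hd)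
    have e4 : cA / (10 * Real.sqrt d) ≤ 2 / (5 * l) * dos d E (l / 4) := by
      calc cA / (10 * Real.sqrt d) = 2 / (5 * l) * (cA * (l / 4) / Real.sqrt d) := by
            field_simp
            ring
        _ ≤ _ := mul_le_mul_of_nonneg_left hdos (by positivity)
    have e5 : (∫ k, q k).im = (∫ k, (α : ℂ) * β k).im +
        ((∫ k, q k) - ∫ k, (α : ℂ) * β k).im := by
      rw [Complex.sub_im]
      ring
    have e6 := (abs_le.1 (Complex.abs_im_le_norm ((∫ k, q k) - ∫ k, (α : ℂ) * β k))).1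
    rw [e5, e2]
    linarith

/-! ### The theorem -/

/-- one momentum -/
theorem one_k (hL : S_LV) (hU : S_UX) {ψ : C(UnitAddCircle, ℝ)} (hψ : IsSemi ψ) {α l b η D : ℝ}
    (hα : 0 < α) (hl : 0 < l) (hb : 0 < b) (hη : 0 < η) (h48 : 48 * b ≤ l) (he3 : 4 ≤ α * l)
    (ρ' : Measure ℝ) [IsProbabilityMeasure ρ']
    (hρ' : ρ' (Set.Icc (-(α * l / 8)) (α * l / 8))ᶜ = 0) {x S : ℂ} {y : ℝ} (hx : x.re = α * y)
    (hx1 : x.im < 0) (hx2 : -1 ≤ x.im) (hS : ‖S‖ ≤ 3 * α * b) (hS2 : S.im ≤ -η)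
    (hD : ‖x + S‖ + 2 * (α * l) ≤ D) :
    bet ((lev ψ (α * l)).conv ρ') (x + S) ≠ 0 ∧
    Us ((lev ψ (α * l)).conv ρ') (cayx x) (cayx S 0) =
      cayx (1 / bet ((lev ψ (α * l)).conv ρ') (x + S) - S) 0 ∧
    (1 / bet ((lev ψ (α * l)).conv ρ') (x + S) - S).im ≤ -(η ^ 3 * (α * l) ^ 2 / (4 * D ^ 4)) ∧
    α * ‖bet ((lev ψ (α * l)).conv ρ') (x + S)‖ ≤ wl l y ∧
    ‖bet ((lev ψ (α * l)).conv ρ') (x + S) * S‖ ≤ 1 / 8 ∧
    ‖bet ((lev ψ (α * l)).conv ρ') (x + S) * S‖ ≤
      3 * b * (α * ‖bet ((lev ψ (α * l)).conv ρ') (x + S)‖) ∧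
    0 ≤ (bet ((lev ψ (α * l)).conv ρ') (x + S)).im ∧
    (|y| ≤ l / 4 → 2 / (5 * (α * l)) ≤ (bet ((lev ψ (α * l)).conv ρ') (x + S)).im) := by
  have hprob : IsProbabilityMeasure (lev ψ (α * l)) := lev_prob ψ _
  have hr : 0 < α * l := by positivity
  have hsupp : ((lev ψ (α * l)).conv ρ')
      (Set.Icc (-(α * l + α * l / 8)) (α * l + α * l / 8))ᶜ = 0 :=
    conv_supp _ _ (lev_supp hψ hr) hρ'
  have him : (x + S).im ≤ -η := by rw [Complex.add_im]; linarith
  have him' : (x + S).im < 0 := by linarith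
  obtain ⟨l1, l2, l3, l4, l5, -⟩ := hL ψ hψ (α * l) ρ' hr hρ' (x + S) him'
  obtain ⟨u1, u2, u3⟩ := hU ((lev ψ (α * l)).conv ρ') _ x S hsupp hx1 (by linarith)
  set β := bet ((lev ψ (α * l)).conv ρ') (x + S) with hβ
  have hDp : 0 < ‖x + S‖ + 2 * (α * l) := by positivity
  have hD0 : 0 < D := by linarith
  have hSre : |S.re| ≤ 3 * α * b := (Complex.abs_re_le_norm S).trans hS
  have hre : (x + S).re = α * y + S.re := by rw [Complex.add_re, hx]
  have hβim : η / D ^ 2 ≤ β.im := by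
    refine le_trans ?_ l4
    apply div_le_div₀ (by linarith) (by linarith) (by positivity)
    exact pow_le_pow_left₀ hDp.le hD 2
  have hβn : η / D ^ 2 ≤ ‖β‖ := hβim.trans ((le_abs_self _).trans (Complex.abs_im_le_norm β))
  refine ⟨u1, u3, ?_, ?_, ?_, ?_, ?_, ?_⟩
  · rw [Complex.sub_im]
    have h1 : (η / D ^ 2) ^ 2 ≤ ‖β‖ ^ 2 := pow_le_pow_left₀ (by positivity) hβn 2
    rw [Complex.add_im] at l5
    have h2 : 0 ≤ (α * l) ^ 2 / 4 * ‖β‖ ^ 2 := by positivity
    have h3 : η * ((α * l) ^ 2 / 4 * (η / D ^ 2) ^ 2) ≤ -S.im * ((α * l) ^ 2 / 4 * ‖β‖ ^ 2) := by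
      apply mul_le_mul (by linarith) _ (by positivity) (by linarith)
      exact mul_le_mul_of_nonneg_left h1 (by positivity)
    have h4 : 0 ≤ -x.im * (1 + (α * l) ^ 2 / 4 * ‖β‖ ^ 2) := mul_nonneg (by linarith) (by linarith)
    have h5 : η ^ 3 * (α * l) ^ 2 / (4 * D ^ 4) = η * ((α * l) ^ 2 / 4 * (η / D ^ 2) ^ 2) := by
      field_simp
    rw [h5]
    have h6 : -(x.im + S.im) * (1 + (α * l) ^ 2 / 4 * ‖β‖ ^ 2) =
        -x.im * (1 + (α * l) ^ 2 / 4 * ‖β‖ ^ 2) + -S.im +
          -S.im * ((α * l) ^ 2 / 4 * ‖β‖ ^ 2) := by ring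
    rw [h6] at l5
    linarith
  · refine wl_bound hα hl hSre h48 l1 ?_
    rw [← hre]
    exact l2
  · rw [norm_mul]
    calc ‖β‖ * ‖S‖ ≤ (2 / (α * l)) * (3 * α * b) :=
          mul_le_mul l1 hS (norm_nonneg _) (by positivity)
      _ = 6 * b / l := by
          field_simp
          norm_num
      _ ≤ 1 / 8 := by
          rw [div_le_iff₀ hl]
          linarith
  · rw [norm_mul]
    calc ‖β‖ * ‖S‖ ≤ ‖β‖ * (3 * α * b) := mul_le_mul_of_nonneg_left hS (norm_nonneg _)
      _ = 3 * b * (α * ‖β‖) := by ring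
  · exact le_trans (by positivity) hβim
  · intro hy
    refine l3 ?_ ?_
    · rw [hre]
      have h1 := abs_add_le (α * y) S.re
      rw [abs_mul, abs_of_pos hα] at h1
      have h2 : α * |y| ≤ α * (l / 4) := mul_le_mul_of_nonneg_left hy hα.le
      have h3 : 3 * α * b ≤ α * (l / 16) := by nlinarith
      nlinarith
    · have h1 := (abs_le.1 (Complex.abs_im_le_norm S)).1
      have h3 : 3 * α * b ≤ α * (l / 16) := by nlinarith
      rw [Complex.add_im]
      nlinarith

theorem main : S_ZR → S_SE → S_LV → S_UX → S_CX → S_UUC → S_FIX → S_CAY → S_GAPA := by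
  intro hZR hSE hLV hUX hCX _ hFIX _ ψ hψ d n A l b κ cA Λ hN hW hdos
  have hd := hN.hd
  have hA := hN.hA
  have hl := hN.hl
  have hb := hN.hb
  have hc := hN.hc
  have hκ := hN.hκ
  have hd' : (0 : ℝ) < d := by exact_mod_cast hd
  have hsd : 0 < Real.sqrt d := Real.sqrt_pos.2 hd'
  have hsd2 : Real.sqrt d * Real.sqrt d = d := Real.mul_self_sqrt hd'.le
  obtain ⟨α, hα⟩ : ∃ α : ℝ, α = 2 * Real.sqrt d / A := ⟨_, rfl⟩
  have hα0 : 0 < α := by rw [hα]; positivity
  have hη : 0 < eta d A cA := by unfold eta; positivity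
  have heta : eta d A cA = α * (cA / (20 * Real.sqrt d)) := by rw [hα]; rfl
  have hηR : eta d A cA ≤ 3 * α * b := by
    rw [heta]
    have h1 := hN.e7
    have h2 : cA / (20 * Real.sqrt d) ≤ b / 20 := by
      rw [div_le_iff₀ hsd] at h1
      rw [div_le_div_iff₀ (by positivity) (by norm_num)]
      nlinarith
    nlinarith
  obtain ⟨zr1, zr2, zr3, zr4⟩ := hZR d (3 * α * b) (eta d A cA) hη hηR
  have hσ : 0 < 2 * eta d A cA / (3 * α * b + 1) ^ 2 := by positivity
  refine ⟨2 * eta d A cA / (3 * α * b + 1) ^ 2, hσ, ?_⟩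
  intro ρ' _ hρ' z hz s hs0
  rw [← hα] at hρ'
  have hs : IsFix (tp α) ((lev ψ (α * l)).conv ρ') (wz (Ks A d) z) s := by
    subst hα
    exact hs0
  suffices h : s ∈ ZR d (3 * α * b) (eta d A cA) from (zr3 s h).1
  obtain ⟨hz1, hz2, hz3, hz4⟩ := hz
  have hprob : IsProbabilityMeasure (lev ψ (α * l)) := lev_prob ψ _
  have hr : 0 < α * l := by positivity
  have hsupp : ((lev ψ (α * l)).conv ρ')
      (Set.Icc (-(α * l + α * l / 8)) (α * l + α * l / 8))ᶜ = 0 :=
    conv_supp _ _ (lev_supp hψ hr) hρ'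
  obtain ⟨q0, hq0, hq1, hq⟩ := hCX.2.2.1 (α * l + α * l / 8) (‖Ks A d‖ + ‖z‖) z.im hz3
  refine (hFIX (tp α) d ((lev ψ (α * l)).conv ρ') (α * l + α * l / 8) q0 (wz (Ks A d) z)
    (vr_tp hα0) hsupp (hCX.2.2.2 d (Ks A d) z hz3.le) hq0 hq1 ?_).2.2
    (ZR d (3 * α * b) (eta d A cA)) zr1 zr2 (fun s hs => hs.1) ?_ s hs
  · intro k a ha
    refine hq _ a ?_ ?_ (abs_le.2 ha)
    · refine (norm_sub_le _ _).trans ?_
      rw [Complex.norm_real]
      linarith [(Ks A d).norm_coe_le_norm k]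
    · simp
  clear hs hs0 s
  intro s hs
  obtain ⟨-, S, hS⟩ := zr3 s hs
  -- the energy
  obtain ⟨E, hE⟩ : ∃ E : ℝ, E = 2 * d - A * Real.sqrt d + z.re / α := ⟨_, rfl⟩
  have hαz : z.re / α ≤ 2 * (A * Real.sqrt d) := by
    rw [div_le_iff₀ hα0, hα]
    have e : 2 * (A * Real.sqrt d) * (2 * Real.sqrt d / A) = 4 * (Real.sqrt d * Real.sqrt d) := by
      field_simp
      norm_num
    rw [e, hsd2]
    exact hz2
  have hαz0 : 0 ≤ z.re / α := by positivity
  have hAd : A * Real.sqrt d ≤ 2 * d := by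
    have := mul_le_mul_of_nonneg_right hN.Ad hsd.le
    calc A * Real.sqrt d ≤ 2 * Real.sqrt d * Real.sqrt d := this
      _ = 2 * d := by rw [mul_assoc, hsd2]
  have hE0 : 0 ≤ E := by rw [hE]; linarith
  have hE4 : E ≤ 4 * d := by rw [hE]; linarith
  have hEA : |E - 2 * d| ≤ A * Real.sqrt d := by
    rw [hE, abs_le]
    constructor <;> linarith
  have hKs : ∀ k, Ks A d k = α * (lap d k - (2 * d - A * Real.sqrt d)) := by
    intro k
    rw [hα]
    rfl
  -- one momentum
  obtain ⟨D, hD⟩ : ∃ D : ℝ, D = DD d A l b := ⟨_, rfl⟩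
  have hDval : D = α * (4 * d) + 1 + 3 * α * b + 2 * (α * l) := by
    rw [hD]
    unfold DD
    rw [← hα]
    ring
  have hxre : ∀ k, ((Ks A d k : ℂ) - z).re = α * (lap d k - E) := by
    intro k
    rw [Complex.sub_re, Complex.ofReal_re, hKs, hE]
    field_simp
    ring
  have hxim : ∀ k, ((Ks A d k : ℂ) - z).im = -z.im := by
    intro k
    rw [Complex.sub_im, Complex.ofReal_im]
    ring
  have hxD : ∀ k, ‖((Ks A d k : ℂ) - z) + S k‖ + 2 * (α * l) ≤ D := by
    intro k
    have h1 := norm_add_le ((Ks A d k : ℂ) - z) (S k)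
    have h2 := Complex.norm_le_abs_re_add_abs_im ((Ks A d k : ℂ) - z)
    rw [hxre, hxim, abs_mul, abs_of_pos hα0, abs_neg, abs_of_pos hz3] at h2
    have h3 : |lap d k - E| ≤ 4 * d := by
      obtain ⟨h4, h5⟩ := lap_mem d k
      rw [abs_le]
      constructor <;> linarith
    have h4 := mul_le_mul_of_nonneg_left h3 hα0.le
    have h5 := (hS k).2.1
    rw [hDval]
    linarith
  have hone := fun k => one_k hLV hUX hψ hα0 hl hb hη hN.e2 (by rw [hα]; exact hN.e3) ρ' hρ'
    (hxre k) (by rw [hxim]; linarith) (by rw [hxim]; linarith) (hS k).2.1 (hS k).2.2 (hxD k)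
  -- continuity
  have hKc : Continuous fun k => ((Ks A d k : ℂ) - z) :=
    (Complex.continuous_ofReal.comp (Ks A d).continuous).sub continuous_const
  have htc : Continuous fun k => ((Ks A d k : ℂ) - z) + S k := hKc.add S.continuous
  have hβc : Continuous fun k => bet ((lev ψ (α * l)).conv ρ') (((Ks A d k : ℂ) - z) + S k) := by
    have hle : ∀ k k', dist (bet ((lev ψ (α * l)).conv ρ') (((Ks A d k : ℂ) - z) + S k))
        (bet ((lev ψ (α * l)).conv ρ') (((Ks A d k' : ℂ) - z) + S k')) ≤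
        dist (((Ks A d k : ℂ) - z) + S k) (((Ks A d k' : ℂ) - z) + S k') / (eta d A cA) ^ 2 := by
      intro k k'
      have hi : ∀ k, (((Ks A d k : ℂ) - z) + S k).im ≤ -eta d A cA := by
        intro k
        rw [Complex.add_im, hxim]
        linarith [(hS k).2.2]
      have h1 := (hLV ψ hψ (α * l) ρ' hr hρ' (((Ks A d k : ℂ) - z) + S k)
        (by linarith [hi k])).2.2.2.2.2 (((Ks A d k' : ℂ) - z) + S k') (by linarith [hi k'])
      rw [dist_eq_norm, dist_eq_norm]
      refine h1.trans ?_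
      apply div_le_div_of_nonneg_left (norm_nonneg _) (by positivity)
      have h2 := hi k
      have h3 := hi k'
      nlinarith
    rw [continuous_iff_continuousAt]
    intro k0
    rw [ContinuousAt, tendsto_iff_dist_tendsto_zero]
    refine squeeze_zero (fun k => dist_nonneg) (fun k => hle k k0) ?_
    have h3 : Tendsto (fun k => dist (((Ks A d k : ℂ) - z) + S k) (((Ks A d k0 : ℂ) - z) + S k0))
        (𝓝 k0) (𝓝 0) := tendsto_iff_dist_tendsto_zero.1 (htc.tendsto k0)
    simpa using h3.div_const ((eta d A cA) ^ 2)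
  have hXc : Continuous fun k =>
      1 / bet ((lev ψ (α * l)).conv ρ') (((Ks A d k : ℂ) - z) + S k) - S k :=
    (continuous_const.div hβc fun k => (hone k).1).sub S.continuous
  obtain ⟨X, hX⟩ : ∃ X : C(UnitAddTorus (Fin d), ℂ), ∀ k, X k =
      1 / bet ((lev ψ (α * l)).conv ρ') (((Ks A d k : ℂ) - z) + S k) - S k :=
    ⟨⟨_, hXc⟩, fun k => rfl⟩
  have hUUX : UU ((lev ψ (α * l)).conv ρ') (wz (Ks A d) z) s = toC fun k => cayx (X k) 0 := by
    unfold UU
    congr 1
    funext k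
    rw [hX k, (hS k).1]
    exact (hone k).2.1
  have hcpos : 0 < cX d A l b cA := by
    unfold cX
    have : 0 < DD d A l b := by rw [← hD, hDval]; positivity
    rw [← hα]
    positivity
  have hcval : cX d A l b cA = eta d A cA ^ 3 * (α * l) ^ 2 / (4 * D ^ 4) := by
    unfold cX
    rw [← hα, ← hD]
  have hXim : ∀ k, (X k).im ≤ -cX d A l b cA := by
    intro k
    rw [hX, hcval]
    exact (hone k).2.2.1
  -- the integrals
  have hqc : Continuous fun k => (α : ℂ) / X k := by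
    refine continuous_const.div X.continuous fun k h0 => ?_
    have := hXim k
    rw [h0, Complex.zero_im] at this
    linarith
  obtain ⟨hW1, hW2⟩ := hW E hE0 hE4
  have hqb := fun k => q_bound (S := S k) hα0 (hone k).1 (hone k).2.2.2.2.1
  obtain ⟨i1, i2, i3, i4⟩ := int_part (E := E) (q := fun k => (α : ℂ) / X k) hd hα0 hl hb hβc hqc
    (fun k => (hone k).2.2.2.1) (fun k => by
      show ‖(α : ℂ) / X k‖ ≤ _
      rw [hX k]
      exact (hqb k).1)
    (fun k => by
      show ‖(α : ℂ) / X k - _‖ ≤ _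
      rw [hX k]
      refine (hqb k).2.trans ?_
      have h1 := (hone k).2.2.2.1
      have h2 := (hone k).2.2.2.2.2.1
      have h3 : 0 ≤ α * ‖bet ((lev ψ (α * l)).conv ρ') (((Ks A d k : ℂ) - z) + S k)‖ := by
        positivity
      calc _ ≤ 2 * (α * ‖bet ((lev ψ (α * l)).conv ρ') (((Ks A d k : ℂ) - z) + S k)‖) *
            (3 * b * (α * ‖bet ((lev ψ (α * l)).conv ρ') (((Ks A d k : ℂ) - z) + S k)‖)) :=
            mul_le_mul_of_nonneg_left h2 (by positivity)
        _ = 6 * b * (α * ‖bet ((lev ψ (α * l)).conv ρ') (((Ks A d k : ℂ) - z) + S k)‖) ^ 2 := by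
            ring
        _ ≤ 6 * b * wl l (lap d k - E) ^ 2 :=
            mul_le_mul_of_nonneg_left (pow_le_pow_left₀ h3 h1 2) (by positivity))
    (fun k => (hone k).2.2.2.2.2.2.1) (fun k hk => (hone k).2.2.2.2.2.2.2 hk)
    hW1 hW2 (hdos E hEA)
  -- the self-energy
  have hbM : b ≤ 4 / l := by
    rw [le_div_iff₀ hl]
    nlinarith [hN.e2, hN.hl1]
  have hθ : 4 * Λ ≤ b * (4 / l) := by
    have := hN.e1
    calc 4 * Λ ≤ 4 * (b / l) := by linarith
      _ = b * (4 / l) := by ring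
  obtain ⟨S', hS'1, hS'2, hS'3⟩ := hSE d n α (cX d A l b cA) (4 / l) (4 * Λ) b κ X hα0 hcpos hXim
    hN.hn hb hκ.le i1 i2 i3 hθ hbM hN.κ2 hN.e4 (by rw [hα]; exact hN.e8)
  have hS'n : ∀ k, ‖S' k‖ ≤ 3 * α * b := by
    intro k
    have h1 : ‖(α : ℂ) * ∫ p, (α : ℂ) / X p‖ ≤ α * b := by
      rw [norm_mul, Complex.norm_real, Real.norm_of_nonneg hα0.le]
      exact mul_le_mul_of_nonneg_left ((norm_integral_le_integral_norm _).trans i3) hα0.le
    have h2 := norm_sub_le (S' k + (α : ℂ) * ∫ p, (α : ℂ) / X p) ((α : ℂ) * ∫ p, (α : ℂ) / X p)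
    rw [add_sub_cancel_right] at h2
    have h3 : 32 * n * α * b * κ ≤ 2 * (α * b) := by
      have h4 : (16 * n * κ) * (α * b) ≤ 1 * (α * b) :=
        mul_le_mul_of_nonneg_right hN.e4 (by positivity)
      calc 32 * n * α * b * κ = 2 * ((16 * n * κ) * (α * b)) := by ring
        _ ≤ 2 * (1 * (α * b)) := by linarith
        _ = 2 * (α * b) := by ring
    have h5 := hS'3 k
    linarith
  have hS'im : ∀ k, (S' k).im ≤ -eta d A cA := by
    intro k
    have h1 := (abs_le.1 ((Complex.abs_im_le_norm _).trans (hS'3 k))).2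
    rw [Complex.add_im] at h1
    have h2 : ((α : ℂ) * ∫ p, (α : ℂ) / X p).im = α * (∫ p, (α : ℂ) / X p).im := by
      simp [Complex.mul_im]
    rw [h2] at h1
    have h3 := mul_le_mul_of_nonneg_left i4 hα0.le
    have h4 := mul_le_mul_of_nonneg_left hN.e5 hα0.le
    have h5 := mul_le_mul_of_nonneg_left hN.e6 hα0.le
    rw [heta]
    have h6 : α * (cA / (10 * Real.sqrt d)) = 4 * (α * (cA / (40 * Real.sqrt d))) := by
      field_simp
      norm_num
    have h7 : α * (cA / (20 * Real.sqrt d)) = 2 * (α * (cA / (40 * Real.sqrt d))) := by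
      field_simp
      norm_num
    rw [mul_sub, h6] at h3
    rw [h7]
    have h8 : α * (32 * n * b * κ) = 32 * n * α * b * κ := by ring
    rw [h8] at h4
    linarith
  rw [hUUX]
  exact zr4 _ S' fun k => ⟨hS'2 k, hS'n k, hS'im k⟩

end

end Pool.Agent.N163.HB.GAPA
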